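import Pool.Agent.W544.PG.Defs6

/-!
# PG-CNV: products of algebraic classes and diagonals are Hodge classes
-/

open Matrix Finset Module

set_option linter.unusedSimpArgs false

namespace Pool.Agent.W374.PG

open Pool.Agent.W544.PG

noncomputable section

theorem sum_swap {ι : Type} [Fintype ι] [DecidableEq ι] {k : ℕ} (j : Fin k)
    (F : (Fin k → ι) → ι → ℂ) :
    ∑ I, ∑ b, F I b = ∑ J : Fin k → ι, ∑ l, F (Function.update J j l) (J j) := by
  rw [← Fintype.sum_prod_type', ← Fintype.sum_prod_type']
  refine Finset.sum_bij' (fun p _ => (Function.update p.1 j p.2, p.1 j))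
    (fun p _ => (Function.update p.1 j p.2, p.1 j)) ?_ ?_ ?_ ?_ ?_
  · intro p _
    exact Finset.mem_univ _
  · intro p _
    exact Finset.mem_univ _
  · intro p _
    simp
  · intro p _
    simp
  · intro p _
    simp

/-- evaluation at eigenvectors -/
theorem ev_act {ι : Type} [Fintype ι] [DecidableEq ι] {k : ℕ} (X : Matrix ι ι ℂ)
    (t : (Fin k → ι) → ℚ) (v : Fin k → ι → ℂ) (e : Fin k → ℂ) (h : ∀ j, X *ᵥ v j = e j • v j) :
    (∑ j, e j) * evG t v = ∑ J, act X (cx t) J * ∏ j, v j (J j) := by
  unfold evG act cx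
  rw [Finset.sum_mul]
  simp only [Finset.sum_mul (s := (univ : Finset (Fin k)))]
  rw [Finset.sum_comm]
  refine Finset.sum_congr rfl fun j _ => ?_
  have h1 : e j * ∑ I : Fin k → ι, (t I : ℂ) * ∏ i, v i (I i) =
      ∑ I : Fin k → ι, ∑ b, (t I : ℂ) * (X (I j) b * v j b) *
        ∏ i ∈ univ.erase j, v i (I i) := by
    rw [Finset.mul_sum]
    refine Finset.sum_congr rfl fun I _ => ?_
    rw [← Finset.mul_prod_erase _ (fun i => v i (I i)) (Finset.mem_univ j)]
    rw [← Finset.sum_mul, ← Finset.mul_sum]
    have h2 : ∑ b, X (I j) b * v j b = e j * v j (I j) := by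
      have := congrFun (h j) (I j)
      simpa [Matrix.mulVec, dotProduct] using this
    rw [h2]
    ring
  rw [h1, sum_swap j]
  refine Finset.sum_congr rfl fun J _ => ?_
  rw [Finset.sum_mul]
  refine Finset.sum_congr rfl fun l _ => ?_
  rw [← Finset.mul_prod_erase _ (fun i => v i (J i)) (Finset.mem_univ j), Function.update_self]
  have h2 : ∏ i ∈ univ.erase j, v i ((Function.update J j l) i) =
      ∏ i ∈ univ.erase j, v i (J i) := by
    refine Finset.prod_congr rfl fun i hi => ?_
    rw [Function.update_of_ne (Finset.ne_of_mem_erase hi)]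
  rw [h2]
  ring

section gen
variable {n r s m : ℕ} (T : HS n) (c : Fin n → Fin r) (d : Fin s → Fin r) (i : Fin r)

/-- the restricted form -/
def gM (p q : Fin s ⊕ Fin n) : ℚ :=
  if Sum.elim d c p = i then Matrix.fromBlocks 0 0 0 T.Q p q else 0

theorem gM_skew (hx : BD c T.x) (p q : Fin s ⊕ Fin n) :
    ∑ l, T.xS s l p * (gM T c d i l q : ℂ) + ∑ l, T.xS s l q * (gM T c d i p l : ℂ) = 0 := by
  rw [Fintype.sum_sum_type, Fintype.sum_sum_type]
  rcases p with p | p
  · have h0 : ∀ l, gM T c d i (Sum.inl p) l = 0 := fun l => by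
      rcases l with l | l <;> simp only [gM, Matrix.fromBlocks_apply₁₁, Matrix.fromBlocks_apply₁₂,
        Matrix.fromBlocks_apply₂₁, Matrix.zero_apply] <;> split_ifs <;> rfl
    simp only [h0]
    simp [HS.xS]
  rcases q with q | q
  · have h0 : ∀ l, gM T c d i l (Sum.inl q) = 0 := fun l => by
      rcases l with l | l <;> simp only [gM, Matrix.fromBlocks_apply₁₁, Matrix.fromBlocks_apply₁₂,
        Matrix.fromBlocks_apply₂₁, Matrix.zero_apply] <;> split_ifs <;> rfl
    simp only [h0]
    simp [HS.xS]
  have h1 : ∀ l : Fin s, T.xS s (Sum.inl l) (Sum.inr p) = 0 := fun l => by simp [HS.xS]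
  have h2 : ∀ l : Fin s, T.xS s (Sum.inl l) (Sum.inr q) = 0 := fun l => by simp [HS.xS]
  simp only [h1, h2, zero_mul, Finset.sum_const_zero, zero_add]
  have h3 := congrFun (congrFun T.skew p) q
  simp only [Matrix.add_apply, Matrix.mul_apply, Matrix.transpose_apply, Matrix.zero_apply, mC,
    Matrix.map_apply] at h3
  by_cases hp : c p = i
  · have h4 : ∀ l, T.xS s (Sum.inr l) (Sum.inr p) * (gM T c d i (Sum.inr l) (Sum.inr q) : ℂ) =
        T.x l p * (T.Q l q : ℂ) := by
      intro l
      by_cases hl : c l = i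
      · simp [HS.xS, gM, hl]
      · have : T.x l p = 0 := hx l p (fun h => hl (h.trans hp))
        simp [HS.xS, this]
    have h5 : ∀ l, T.xS s (Sum.inr l) (Sum.inr q) * (gM T c d i (Sum.inr p) (Sum.inr l) : ℂ) =
        (T.Q p l : ℂ) * T.x l q := by
      intro l
      simp [HS.xS, gM, hp]
      ring
    simp only [h4, h5]
    exact h3
  · have h4 : ∀ l, T.xS s (Sum.inr l) (Sum.inr p) * (gM T c d i (Sum.inr l) (Sum.inr q) : ℂ) =
        0 := by
      intro l
      by_cases hl : c l = i
      · have : T.x l p = 0 := hx l p (fun h => hp (h.symm.trans hl))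
        simp [HS.xS, this]
      · simp [gM, hl]
    have h5 : ∀ l, T.xS s (Sum.inr l) (Sum.inr q) * (gM T c d i (Sum.inr p) (Sum.inr l) : ℂ) =
        0 := by
      intro l
      simp [gM, hp]
    simp only [h4, h5, Finset.sum_const_zero, add_zero]

end gen

/-- a generator is killed by the Hodge operator -/
theorem gen_act {n r s m : ℕ} (T : HS n) (c : Fin n → Fin r) (d : Fin s → Fin r)
    (a : Fin m → Fin r) (hx : BD c T.x) (σ : Fin m → Fin m) (hσ : ∀ j, σ (σ j) = j)
    (ν : Fin m → Fin s → ℚ) (t : (Fin m → Fin s ⊕ Fin n) → ℚ)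
    (ht : ∀ J, t J = (∏ j with σ j = j, Sum.elim (ν j) (fun _ => 0) (J j)) *
      ∏ j with j < σ j, gM T c d (a j) (J j) (J (σ j))) (J : Fin m → Fin s ⊕ Fin n) :
    act (T.xS s) (cx t) J = 0 := by
  classical
  set F : Fin m → ℂ := fun j => ∑ l, T.xS s l (J j) * (t (Function.update J j l) : ℂ) with hF
  have hact : act (T.xS s) (cx t) J = ∑ j, F j := rfl
  have hfix : ∀ j, σ j = j → F j = 0 := by
    intro j hj
    refine Finset.sum_eq_zero fun l _ => ?_
    rcases l with l | l
    · rcases hJ : J j with p | p <;> simp [HS.xS]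
    · rw [ht]
      have : ∏ i with σ i = i, Sum.elim (ν i) (fun _ => (0 : ℚ))
          (Function.update J j (Sum.inr l) i) = 0 := by
        refine Finset.prod_eq_zero (i := j) (by simp [hj]) ?_
        rw [Function.update_self]
        rfl
      rw [this]
      simp
  have hlt : ∀ j, j < σ j → F j + F (σ j) = 0 := by
    intro j hj
    set R : ℚ := (∏ i with σ i = i, Sum.elim (ν i) (fun _ => (0 : ℚ)) (J i)) *
      ∏ i ∈ (univ.filter fun i => i < σ i).erase j, gM T c d (a i) (J i) (J (σ i)) with hR
    have hmem : j ∈ univ.filter fun i => i < σ i := by simp [hj]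
    have h1 : ∀ l, t (Function.update J j l) = R * gM T c d (a j) l (J (σ j)) := by
      intro l
      rw [ht, ← Finset.mul_prod_erase _ _ hmem, Function.update_self,
        Function.update_of_ne hj.ne', hR]
      have e1 : ∏ i with σ i = i, Sum.elim (ν i) (fun _ => (0 : ℚ)) (Function.update J j l i) =
          ∏ i with σ i = i, Sum.elim (ν i) (fun _ => (0 : ℚ)) (J i) := by
        refine Finset.prod_congr rfl fun i hi => ?_
        rw [Function.update_of_ne]
        rintro rfl
        simp only [Finset.mem_filter, Finset.mem_univ, true_and] at hi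
        exact absurd hi hj.ne'
      have e2 : ∏ i ∈ (univ.filter fun i => i < σ i).erase j, gM T c d (a i)
          (Function.update J j l i) (Function.update J j l (σ i)) =
          ∏ i ∈ (univ.filter fun i => i < σ i).erase j, gM T c d (a i) (J i) (J (σ i)) := by
        refine Finset.prod_congr rfl fun i hi => ?_
        simp only [Finset.mem_erase, Finset.mem_filter, Finset.mem_univ, true_and] at hi
        rw [Function.update_of_ne hi.1, Function.update_of_ne]
        intro h
        have h' : i = σ j := by rw [← h, hσ]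
        have h2 := hi.2
        rw [h, h'] at h2
        exact absurd h2 (not_lt.2 hj.le)
      rw [e1, e2]
      ring
    have h2 : ∀ l, t (Function.update J (σ j) l) = R * gM T c d (a j) (J j) l := by
      intro l
      rw [ht, ← Finset.mul_prod_erase _ _ hmem, Function.update_self,
        Function.update_of_ne hj.ne, hR]
      have e1 : ∏ i with σ i = i, Sum.elim (ν i) (fun _ => (0 : ℚ))
          (Function.update J (σ j) l i) =
          ∏ i with σ i = i, Sum.elim (ν i) (fun _ => (0 : ℚ)) (J i) := by
        refine Finset.prod_congr rfl fun i hi => ?_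
        rw [Function.update_of_ne]
        rintro rfl
        simp only [Finset.mem_filter, Finset.mem_univ, true_and] at hi
        rw [hσ] at hi
        exact absurd hi hj.ne
      have e2 : ∏ i ∈ (univ.filter fun i => i < σ i).erase j, gM T c d (a i)
          (Function.update J (σ j) l i) (Function.update J (σ j) l (σ i)) =
          ∏ i ∈ (univ.filter fun i => i < σ i).erase j, gM T c d (a i) (J i) (J (σ i)) := by
        refine Finset.prod_congr rfl fun i hi => ?_
        simp only [Finset.mem_erase, Finset.mem_filter, Finset.mem_univ, true_and] at hi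
        have hne : i ≠ σ j := by
          intro h
          have h2 := hi.2
          rw [h, hσ] at h2
          exact absurd h2 (not_lt.2 hj.le)
        have hne2 : σ i ≠ σ j := by
          intro h
          apply hi.1
          rw [← hσ i, h, hσ]
        rw [Function.update_of_ne hne, Function.update_of_ne hne2]
      rw [e1, e2]
      ring
    have h3 := gM_skew T c d (a j) hx (J j) (J (σ j))
    have h4 : F j = (R : ℂ) * ∑ l, T.xS s l (J j) * (gM T c d (a j) l (J (σ j)) : ℂ) := by
      rw [hF, Finset.mul_sum]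
      refine Finset.sum_congr rfl fun l _ => ?_
      rw [h1 l]
      push_cast
      ring
    have h5 : F (σ j) = (R : ℂ) * ∑ l, T.xS s l (J (σ j)) * (gM T c d (a j) (J j) l : ℂ) := by
      rw [hF, Finset.mul_sum]
      refine Finset.sum_congr rfl fun l _ => ?_
      rw [h2 l]
      push_cast
      ring
    rw [h4, h5, ← mul_add, h3, mul_zero]
  have hall : ∀ j, F j + F (σ j) = 0 := by
    intro j
    rcases lt_trichotomy j (σ j) with h | h | h
    · exact hlt j h
    · rw [← h, hfix j h.symm, add_zero]
    · have h1 := hlt (σ j) (by rw [hσ]; exact h)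
      rw [hσ, add_comm] at h1
      exact h1
  have hsum : ∑ j, F (σ j) = ∑ j, F j :=
    Function.Bijective.sum_comp (Function.Involutive.bijective hσ) F
  have h2 : ∑ j, F j + ∑ j, F j = 0 := by
    nth_rewrite 2 [← hsum]
    rw [← Finset.sum_add_distrib]
    exact Finset.sum_eq_zero fun j _ => hall j
  rw [hact]
  have h3 : (2 : ℂ) * ∑ j, F j = 0 := by rw [two_mul]; exact h2
  exact (mul_eq_zero.1 h3).resolve_left two_ne_zero

theorem hodge_algP {n r s m : ℕ} (T : HS n) (c : Fin n → Fin r) (d : Fin s → Fin r)
    (a : Fin m → Fin r) (hx : BD c T.x) (t : (Fin m → Fin s ⊕ Fin n) → ℚ)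
    (ht : t ∈ T.algP c d a) : T.IsHodgeS t := by
  intro v e he hne
  induction ht using Submodule.span_induction with
  | mem t ht =>
    obtain ⟨σ, ν, hσ, -, -, ht⟩ := ht
    have h1 := ev_act (T.xS s) t v (fun j => (e j : ℂ)) he
    have h2 : ∑ J, act (T.xS s) (cx t) J * ∏ j, v j (J j) = 0 :=
      Finset.sum_eq_zero fun J _ => by
        rw [gen_act T c d a hx σ hσ ν t ht J, zero_mul]
    rw [h2] at h1
    refine (mul_eq_zero.1 h1).resolve_left ?_
    rw [← Int.cast_sum]
    exact_mod_cast hne
  | zero => simp [evG]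
  | add x y _ _ hx' hy' =>
    have : evG (x + y) v = evG x v + evG y v := by
      simp only [evG, Pi.add_apply, Rat.cast_add, add_mul, Finset.sum_add_distrib]
    rw [this, hx', hy', add_zero]
  | smul q x _ hx' =>
    have : evG (q • x) v = (q : ℂ) * evG x v := by
      simp only [evG, Pi.smul_apply, smul_eq_mul, Rat.cast_mul, mul_assoc, Finset.mul_sum]
    rw [this, hx', mul_zero]

theorem cnv : S_cnv := by
  intro n r w s m l T W c d a _ hx
  refine ⟨fun t ht => hodge_algP T c d a hx t ht, ?_⟩
  intro α β hα hβ u v a b hu hv hne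
  have h1 : ∑ J, ∑ L, ((α J * β L : ℚ) : ℂ) * ((∏ j, u j (J j)) * ∏ i, v i (L i)) =
      evG α u * ev β v := by
    unfold evG ev
    rw [Finset.sum_mul_sum]
    refine Finset.sum_congr rfl fun J _ => Finset.sum_congr rfl fun L _ => ?_
    push_cast
    ring
  rw [h1]
  by_cases h2 : ∑ j, a j = 0
  · have h3 : ∑ i, b i ≠ 0 := by
      intro h3
      apply hne
      rw [h2, h3]
      norm_num
    rw [hβ v b hv h3, mul_zero]
  · rw [hα u a hu h2, zero_mul]

end

end Pool.Agent.W374.PG
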